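import Pool.Agent.Lib.MP_011fc9_an.H57Classes

namespace Pool.Agent.Results.MP_011fc9_an.Coefficient

open Filter Topology Pool.Agent.Lib.MP_011fc9_an

/-- Every nonexpansive map from a nonempty weakly compact convex set `C ⊆ X` to the nonempty
compact subsets of `C` has a fixed point. -/
def CompactValuedFPP (X : Type*) [NormedAddCommGroup X] [NormedSpace ℝ X] : Prop :=
  ∀ (C : Set X) (T : X → Set X), C.Nonempty → Convex ℝ C → IsCompact (toWeakSpace ℝ X '' C) →
    (∀ x ∈ C, (T x).Nonempty ∧ IsCompact (T x) ∧ T x ⊆ C) →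
    (∀ x ∈ C, ∀ y ∈ C, Metric.hausdorffDist (T x) (T y) ≤ dist x y) →
    ∃ x ∈ C, x ∈ T x

/-- If the coefficient `R(a, X)` is less than `a + 1 / 2` for some `a > 0`, then every
nonexpansive map from a nonempty weakly compact convex subset `C` of the Banach space `X` to the
nonempty compact subsets of `C` has a fixed point. -/
theorem result {X : Type*} [NormedAddCommGroup X] [NormedSpace ℝ X] [CompleteSpace X]
    (a R : ℝ) (ha : 0 < a) (hR : R < a + 1 / 2)
    (hX : ∀ (h : ℕ → X) (z : X), (∀ f : X →L[ℝ] ℝ, Tendsto (fun n => f (h n)) atTop (𝓝 0)) →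
      (∀ η > 0, ∀ᶠ m in atTop, ∀ᶠ n in atTop, ‖h n - h m‖ ≤ 1 + η) → ‖z‖ ≤ a →
      ∀ η > 0, ∃ᶠ n in atTop, ‖h n + z‖ ≤ R + η) :
    CompactValuedFPP X := by
  intro C T hne hconv hC hT hlip
  have hK : PropK X (2 * a / (1 + 2 * a)) (2 * R / (1 + 2 * a)) :=
    propK_coefficient ha fun h z hh hD hz => hX h z (fun f => by simpa using hh f) hD hz
  have hden : 0 < 1 + 2 * a := by linarith
  exact main_of_propK (by positivity) ((div_lt_one hden).mpr (by linarith))
    ((div_lt_one hden).mpr (by linarith)) hK hne hconv hC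
    ⟨fun x hx => (hT x hx).1, fun x hx => (hT x hx).2.1, fun x hx => (hT x hx).2.2, hlip⟩

end Pool.Agent.Results.MP_011fc9_an.Coefficient
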