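import Pool.Agent.Lib.MP_011fc9_an.H57Classes
import Pool.Agent.Lib.MP_011fc9_an.H57Examples

namespace Pool.Agent.Results.MP_011fc9_an.Lattice

open Filter Topology Pool.Agent.Lib.MP_011fc9_an

/-- Every nonexpansive map from a nonempty weakly compact convex set `C ⊆ X` to the nonempty
compact subsets of `C` has a fixed point. -/
def CompactValuedFPP (X : Type*) [NormedAddCommGroup X] [NormedSpace ℝ X] : Prop :=
  ∀ (C : Set X) (T : X → Set X), C.Nonempty → Convex ℝ C → IsCompact (toWeakSpace ℝ X '' C) →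
    (∀ x ∈ C, (T x).Nonempty ∧ IsCompact (T x) ∧ T x ⊆ C) →
    (∀ x ∈ C, ∀ y ∈ C, Metric.hausdorffDist (T x) (T y) ≤ dist x y) →
    ∃ x ∈ C, x ∈ T x

/-- Let `X` be a Banach space with an isomorphic embedding `J` into a normed lattice `Y` of Riesz
angle at most `α`, with `m ‖x‖ ≤ ‖J x‖ ≤ M ‖x‖` and `α M < 2 m`, such that `|J (h n)| ⊓ |J d|`
tends to `0` in norm for all weakly null sequences `h` in `X` and all `d` in `X`. Then every
nonexpansive map from a nonempty weakly compact convex subset `C` of `X` to the nonempty compact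
subsets of `C` has a fixed point. -/
theorem result {X : Type*} [NormedAddCommGroup X] [NormedSpace ℝ X] [CompleteSpace X]
    {Y : Type*} [NormedAddCommGroup Y] [Lattice Y] [HasSolidNorm Y] [IsOrderedAddMonoid Y]
    [NormedSpace ℝ Y] (J : X →L[ℝ] Y) (m M α : ℝ) (hm : 0 < m) (hαM : α * M < 2 * m)
    (hJ1 : ∀ x, m * ‖x‖ ≤ ‖J x‖) (hJ2 : ∀ x, ‖J x‖ ≤ M * ‖x‖)
    (hangle : ∀ a b : Y, ‖|a| ⊔ |b|‖ ≤ α * max ‖a‖ ‖b‖)
    (horth : ∀ h : ℕ → X, (∀ f : X →L[ℝ] ℝ, Tendsto (fun n => f (h n)) atTop (𝓝 0)) →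
      ∀ d : X, Tendsto (fun n => ‖|J (h n)| ⊓ |J d|‖) atTop (𝓝 0)) :
    CompactValuedFPP X := by
  intro C T hne hconv hC hT hlip
  have hmax : max α 0 * max M 0 < 2 * m := by
    rcases le_total α 0 with h1 | h1
    · rw [max_eq_right h1]; linarith
    · rcases le_total M 0 with h2 | h2
      · rw [max_eq_right h2]; linarith
      · rwa [max_eq_left h1, max_eq_left h2]
  have hK : PropK X (1 / 2) (max α 0 * max M 0 / (2 * m)) :=
    propK_lattice J hm (le_max_right _ _) (le_max_right _ _) hJ1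
      (fun x => (hJ2 x).trans (mul_le_mul_of_nonneg_right (le_max_left _ _) (norm_nonneg _)))
      (fun a b => (hangle a b).trans (mul_le_mul_of_nonneg_right (le_max_left _ _)
        ((norm_nonneg a).trans (le_max_left _ _))))
      (fun h hh d => horth h (fun f => by simpa using hh f) d)
  exact main_of_propK (by norm_num) (by norm_num)
    ((div_lt_one (by linarith)).mpr hmax) hK hne hconv hC
    ⟨fun x hx => (hT x hx).1, fun x hx => (hT x hx).2.1, fun x hx => (hT x hx).2.2, hlip⟩

end Pool.Agent.Results.MP_011fc9_an.Lattice
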