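import Pool.Agent.Lib.MP_011fc9_an.H57L1

namespace Pool.Agent.Results.MP_011fc9_an.MaureyL1

open MeasureTheory Pool.Agent.Lib.MP_011fc9_an

/-- Let `μ` be a finite measure and `C` a nonempty weakly compact convex subset of the real space
`L¹(μ)` such that, for some `M` and some `δ < 1 / 2`, every difference `f = a - b` of elements of
`C` satisfies `∫_{|f| > M ‖f‖} |f| ≤ δ ‖f‖`. Then every nonexpansive map `T` from `C` to the
nonempty compact subsets of `C` has a fixed point. -/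
theorem result {Ω : Type*} [MeasurableSpace Ω] (μ : Measure Ω) [IsFiniteMeasure μ]
    (C : Set (Lp ℝ 1 μ)) (hne : C.Nonempty) (hconv : Convex ℝ C)
    (hC : IsCompact (toWeakSpace ℝ (Lp ℝ 1 μ) '' C))
    (M δ : ℝ) (hδ : δ < 1 / 2)
    (hdiff : ∀ a ∈ C, ∀ b ∈ C,
      ∫ ω in {ω | M * ‖a - b‖ < |a ω - b ω|}, |a ω - b ω| ∂μ ≤ δ * ‖a - b‖)
    (T : Lp ℝ 1 μ → Set (Lp ℝ 1 μ))
    (hT : ∀ x ∈ C, (T x).Nonempty ∧ IsCompact (T x) ∧ T x ⊆ C)
    (hlip : ∀ x ∈ C, ∀ y ∈ C, Metric.hausdorffDist (T x) (T y) ≤ dist x y) :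
    ∃ x ∈ C, x ∈ T x := by
  obtain ⟨J, lam, hlam, hP⟩ := propJ_L1 (μ := μ) (C := C) hδ hdiff
  exact main_of_propJ (by norm_num) (by norm_num) hlam hP hne hconv hC
    ⟨fun x hx => (hT x hx).1, fun x hx => (hT x hx).2.1, fun x hx => (hT x hx).2.2, hlip⟩

end Pool.Agent.Results.MP_011fc9_an.MaureyL1
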