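import Mathlib
import Pool.Agent.Lib.MP_011fc9_an.H57Chain

namespace Pool.Agent.Results.MP_011fc9_an.SymmetricValues

open Metric Pool.Agent.Lib.MP_011fc9_an

/-- Centres of centrally symmetric compact sets are at distance at most the Hausdorff distance. -/
theorem dist_centre_le {X : Type*} [NormedAddCommGroup X] [NormedSpace ℝ X] {A B : Set X}
    {a b : X} {h : ℝ} (hA : IsCompact A) (hAne : A.Nonempty) (hB : IsCompact B)
    (hBne : B.Nonempty) (ha : ∀ y ∈ A, (2 : ℝ) • a - y ∈ A) (hb : ∀ y ∈ B, (2 : ℝ) • b - y ∈ B)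
    (hAB : ∀ y ∈ A, ∃ z ∈ B, dist y z ≤ h) (hBA : ∀ z ∈ B, ∃ y ∈ A, dist z y ≤ h) :
    dist a b ≤ h := by
  obtain ⟨φ, hφ1, hφ⟩ := exists_dual_vector'' ℝ (a - b)
  have hle : ∀ v : X, |φ v| ≤ ‖v‖ := fun v => by
    have := φ.le_of_opNorm_le hφ1 v
    rwa [one_mul, Real.norm_eq_abs] at this
  obtain ⟨y, hy, hymax⟩ := hA.exists_isMaxOn hAne φ.continuous.continuousOn
  obtain ⟨z, hz, hzmax⟩ := hB.exists_isMaxOn hBne φ.continuous.continuousOn
  -- the maximum over `A` is at most the maximum over `B` plus `h`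
  have h1 : φ y ≤ φ z + h := by
    obtain ⟨z', hz', hd⟩ := hAB y hy
    have e1 : φ z' ≤ φ z := hzmax hz'
    have e2 := (abs_le.mp (hle (y - z'))).2
    rw [map_sub, ← dist_eq_norm] at e2
    linarith
  -- the same for the minima
  have h2 : 2 * φ a - φ y ≤ 2 * φ b - φ z + h := by
    obtain ⟨y', hy', hd⟩ := hBA _ (hb z hz)
    have e1 : φ ((2 : ℝ) • a - y') ≤ φ y := hymax (ha y' hy')
    have e2 := (abs_le.mp (hle ((2 : ℝ) • b - z - y'))).1
    rw [← dist_eq_norm] at e2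
    simp only [map_sub, map_smul, smul_eq_mul] at e1 e2
    linarith
  have h3 : dist a b = φ a - φ b := by
    rw [dist_eq_norm, ← map_sub, hφ]; rfl
  rw [h3]
  linarith

/-- Let `C` be a set on which every nonexpansive self-map has a fixed point. Then every
nonexpansive map from `C` to the nonempty compact convex subsets of `C` all of whose values are
centrally symmetric (for instance segments) has a fixed point. -/
theorem result {X : Type*} [NormedAddCommGroup X] [NormedSpace ℝ X] (C : Set X)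
    (hC : ∀ f : X → X, Set.MapsTo f C C → (∀ x ∈ C, ∀ y ∈ C, dist (f x) (f y) ≤ dist x y) →
      ∃ x ∈ C, f x = x)
    (T : X → Set X)
    (hT : ∀ x ∈ C, (T x).Nonempty ∧ IsCompact (T x) ∧ Convex ℝ (T x) ∧ T x ⊆ C)
    (hsym : ∀ x ∈ C, ∃ z : X, ∀ y ∈ T x, (2 : ℝ) • z - y ∈ T x)
    (hlip : ∀ x ∈ C, ∀ y ∈ C, Metric.hausdorffDist (T x) (T y) ≤ dist x y) :
    ∃ x ∈ C, x ∈ T x := by
  classical
  have hNE : NEMap C T :=
    ⟨fun x hx => (hT x hx).1, fun x hx => (hT x hx).2.1, fun x hx => (hT x hx).2.2.2, hlip⟩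
  choose! z hz using hsym
  have hzT : ∀ x ∈ C, z x ∈ T x := by
    intro x hx
    obtain ⟨y, hy⟩ := (hT x hx).1
    have h1 := (hT x hx).2.2.1 hy (hz x hx y hy) (show (0 : ℝ) ≤ 1 / 2 by norm_num)
      (show (0 : ℝ) ≤ 1 / 2 by norm_num) (by norm_num)
    have h2 : (1 / 2 : ℝ) • y + (1 / 2 : ℝ) • ((2 : ℝ) • z x - y) = z x := by module
    rwa [h2] at h1
  obtain ⟨x, hx, hxz⟩ := hC z (fun x hx => (hT x hx).2.2.2 (hzT x hx)) (fun x hx y hy =>
    dist_centre_le (hT x hx).2.1 (hT x hx).1 (hT y hy).2.1 (hT y hy).1 (hz x hx) (hz y hy)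
      (fun v hv => hNE.near hx hy hv)
      (fun v hv => by rw [dist_comm]; exact hNE.near hy hx hv))
  refine ⟨x, hx, ?_⟩
  have h1 := hzT x hx
  rwa [hxz] at h1

end Pool.Agent.Results.MP_011fc9_an.SymmetricValues
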